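import Pool.Agent.L0h27.Kom.Main

/-!
# The final theorem for matrices
-/

set_option autoImplicit false

namespace Pool.Agent.L0h27.Kom

open Finset Real Pool.Agent.N243

open H167FK.Sys (alive)

open scoped Classical in
theorem rows_of_weights {I : Type} [Fintype I] (X : I → ℝ) (h : ∑ i, Real.exp (-X i) ≤ 1)
    (r : ℝ) : ((Finset.univ.filter (fun i => X i ≤ r)).card : ℝ) ≤ Real.exp r := by
  set D := Finset.univ.filter (fun i => X i ≤ r) with hD
  have h1 : (D.card : ℝ) * Real.exp (-r) ≤ ∑ i ∈ D, Real.exp (-X i) := by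
    rw [← nsmul_eq_mul]
    apply Finset.card_nsmul_le_sum
    intro i hi
    rw [hD, Finset.mem_filter] at hi
    exact Real.exp_le_exp.2 (by linarith [hi.2])
  have h2 : ∑ i ∈ D, Real.exp (-X i) ≤ ∑ i, Real.exp (-X i) :=
    Finset.sum_le_univ_sum_of_nonneg fun i => (Real.exp_pos _).le
  calc (D.card : ℝ) = (D.card : ℝ) * Real.exp (-r) * Real.exp r := by
        rw [mul_assoc, ← Real.exp_add]; simp
    _ ≤ 1 * Real.exp r :=
        mul_le_mul_of_nonneg_right (h1.trans (h2.trans h)) (Real.exp_pos _).le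
    _ = _ := one_mul _

/-- the short case -/
theorem short {I J : Type} [Fintype I] [Fintype J] (a : I → J → ℝ) (t : ℝ) (ht : 1 ≤ t)
    (a1 : ∀ i j, |a i j| ≤ 1) (col : ∀ j, ∑ i, a i j ^ 2 ≤ t) (x₀ : J → ℝ)
    (hx₀ : ∀ j, |x₀ j| ≤ 1)
    (hal : ((alive x₀ : Finset J).card : ℝ) ≤ Real.exp (2 * Lam (dl t))) :
    ∃ x : J → ℝ, (∀ j, |x j| = 1) ∧
      ∀ i, |∑ j, a i j * (x j - x₀ j)| ≤ 82400 * Real.sqrt t := by
  classical
  have hd := dl_pos ht
  have hΛ := Lam_ge (dl t)
  have hst := Real.sqrt_nonneg t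
  set Λ := Lam (dl t) with hΛd
  have hX : ∀ r : ℝ, ((Finset.univ.filter
      (fun _ : I => Real.log (Fintype.card I + 1) ≤ r)).card : ℝ) ≤ Real.exp r := by
    intro r
    by_cases hr : Real.log (Fintype.card I + 1) ≤ r
    · have h1 : ((Finset.univ.filter
          (fun _ : I => Real.log (Fintype.card I + 1) ≤ r)).card : ℝ) ≤ Fintype.card I := by
        exact_mod_cast Finset.card_le_univ _
      have h2 : ((Fintype.card I : ℝ) + 1) ≤ Real.exp r := by
        rw [← Real.log_le_iff_le_exp (by positivity)]; exact hr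
      linarith
    · have h1 : (Finset.univ.filter (fun _ : I => Real.log (Fintype.card I + 1) ≤ r)) = ∅ := by
        rw [Finset.filter_eq_empty_iff]
        intro _ _; exact hr
      rw [h1]
      simp [(Real.exp_pos r).le]
  obtain ⟨x, h1, -, h3⟩ := stageB a t ht a1 col (fun _ => Real.log (Fintype.card I + 1)) hX
    (sp (2 * Λ)) (sp_ge (by linarith)) (fun _ => 1) (fun _ => one_pos) (fun _ => le_rfl) Λ hΛ 1
    x₀ hx₀ (by rw [pow_one]; exact hal) (by rw [pow_one]; exact (sp_pow (by linarith)).ge)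
    (fun _ => Or.inl rfl)
  refine ⟨x, h1, fun i => (h3 i).trans ?_⟩
  have h4 : cst t (Λ + 2) ≤ 41200 * Real.sqrt t := by
    refine (cst_le_Ff ht le_rfl).trans ?_
    have := Ff_Lam_le hd
    have h2 : 41200 * Real.sqrt t * Ff (dl t) Λ ≤ 41200 * Real.sqrt t * 1 :=
      mul_le_mul_of_nonneg_left this (by positivity)
    linarith
  unfold costB
  rw [Finset.sum_range_one, pow_zero, one_mul, mul_one]
  split_ifs
  · linarith
  · linarith

open scoped Classical in
/-- the long case -/
theorem long {I J : Type} [Fintype I] [Fintype J] (a : I → J → ℝ) (t : ℝ) (ht : 1 ≤ t)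
    (a1 : ∀ i j, |a i j| ≤ 1) (col : ∀ j, ∑ i, a i j ^ 2 ≤ t) (X : I → ℝ) (hX0 : ∀ i, 0 ≤ X i)
    (hX : ∀ r : ℝ, ((Finset.univ.filter (fun i => X i ≤ r)).card : ℝ) ≤ Real.exp r)
    (x₀ : J → ℝ) (hx₀ : ∀ j, |x₀ j| ≤ 1) (l : ℝ)
    (hal : ((alive x₀ : Finset J).card : ℝ) ≤ Real.exp l) (hl : 2 * Lam (dl t) ≤ l) :
    ∃ x : J → ℝ, (∀ j, |x j| = 1) ∧
      (∀ i, |∑ j, a i j * (x j - x₀ j)| ≤ 2000000 * Real.sqrt t * Ef (dl t) (min (X i) l)) ∧
      ∀ Y, 0 ≤ Y → ((Finset.univ.filter (fun i => 5000000000 * Real.sqrt t * Ef (dl t) Y <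
        |∑ j, a i j * (x j - x₀ j)|)).card : ℝ) ≤ Real.exp (l - Y) := by
  have hd := dl_pos ht
  have hΛ := Lam_ge (dl t)
  have hst : 0 ≤ Real.sqrt t := Real.sqrt_nonneg t
  have hst1 : 1 ≤ Real.sqrt t := Real.one_le_sqrt.2 ht
  have hl0 : 0 ≤ l := by linarith
  obtain ⟨K, hK1, hK2⟩ : ∃ K : ℕ, 2 ^ K * Lam (dl t) ≤ l / 2 ∧ l / 2 < 2 ^ (K + 1) * Lam (dl t) := by
    obtain ⟨K, h1, h2⟩ := exists_nat_pow_near (x := l / 2 / Lam (dl t)) (y := 2)
      (by rw [one_le_div (by linarith)]; linarith) (by norm_num)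
    refine ⟨K, ?_, ?_⟩
    · rwa [le_div_iff₀ (by linarith)] at h1
    · rwa [div_lt_iff₀ (by linarith)] at h2
  set Λ := Lam (dl t) with hΛd
  set r := l - (2 ^ K - 1) * Λ - 4 with hr
  obtain ⟨x, D, h1, h2, h3, h4, h5, h6⟩ := stageA a t ht a1 col X hX Λ hΛ l r x₀ hx₀ hal K le_rfl
  have hpK : (1:ℝ) ≤ 2 ^ K := one_le_pow₀ (by norm_num)
  have e4 : (2:ℝ) ^ (K + 2) * Λ = 4 * (2 ^ K * Λ) := by rw [pow_add]; ring
  have e2 : (2:ℝ) ^ (K + 1) * Λ = 2 * (2 ^ K * Λ) := by rw [pow_add]; ring
  have hb1 : 1 ≤ 2 ^ K * Λ := by nlinarith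
  -- the last set of heavy rows
  set H : Finset I := Finset.univ.filter
    (fun i => t * Real.exp (-(2 ^ K * Λ / 4)) < ∑ j ∈ (alive x : Finset J), a i j ^ 2) with hH
  have hHcard : (H.card : ℝ) ≤ Real.exp (l + Λ - 3 / 4 * (2 ^ K * Λ)) := by
    have := card_heavy a t ht col (alive x) (2 ^ K * Λ / 4) _ h3
    have e3 : l - (2 ^ K - 1) * Λ + 2 ^ K * Λ / 4 = l + Λ - 3 / 4 * (2 ^ K * Λ) := by ring
    rwa [e3] at this
  have hal2 : ((alive x : Finset J).card : ℝ) ≤ Real.exp (2 ^ (K + 2) * Λ) := by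
    refine h3.trans (Real.exp_le_exp.2 ?_)
    have h7 : Λ ≤ 2 ^ K * Λ := by nlinarith
    rw [e4]
    have : (2 ^ K - 1) * Λ = 2 ^ K * Λ - Λ := by ring
    linarith
  obtain ⟨z, z1, -, z3⟩ := stageB a t ht a1 col X hX (sp (2 ^ (K + 2) * Λ)) (sp_ge (by positivity))
    (fun i => if i ∈ H then 1 else th (2 ^ K * Λ) (2 ^ (K + 2) * Λ))
    (fun i => by
      split_ifs
      · exact one_pos
      · exact th_pos (by positivity))
    (fun i => by
      split_ifs
      · exact le_rfl
      · exact th_le _ _) Λ hΛ (K + 2) x h1 hal2 (sp_pow (by positivity)).ge (fun i => by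
      by_cases hi : i ∈ H
      · left; rw [if_pos hi]
      · rw [if_neg hi]
        apply th_mass (by positivity)
        rw [hH, Finset.mem_filter] at hi
        push Not at hi
        have := hi (Finset.mem_univ i)
        rwa [neg_div])
  have hthle : ∀ i, (if i ∈ H then (1:ℝ) else th (2 ^ K * Λ) (2 ^ (K + 2) * Λ)) ≤ 1 := by
    intro i
    split_ifs
    · exact le_rfl
    · exact th_le _ _
  have hz : ∀ i, 0 ≤ min (X i) l := fun i => le_min (hX0 i) hl0
  -- all rows
  have hrow : ∀ i, |∑ j, a i j * (z j - x₀ j)| ≤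
      2000000 * Real.sqrt t * Ef (dl t) (min (X i) l) := by
    intro i
    rw [split_sum a x₀ x z i]
    refine (abs_add_le _ _).trans ?_
    have hE := Ef_ge_one hd (hz i)
    have hA : |∑ j, a i j * (x j - x₀ j)| ≤ 576800 * Real.sqrt t * Ef (dl t) (min (X i) l) := by
      by_cases hi : X i ≤ r
      · rw [h5 i hi, abs_zero]; positivity
      · push Not at hi
        have k1 : |∑ j, a i j * (x j - x₀ j)| ≤ ∑ k ∈ range K,
            (if 2 ^ k * Λ < 2 ^ K * Λ then cst t (2 ^ k * Λ + 2) else 0) := by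
          refine (h6 i).trans (Finset.sum_le_sum fun k hk => ?_)
          have hk' := Finset.mem_range.mp hk
          have k2 : (2:ℝ) ^ k * Λ < 2 ^ K * Λ :=
            mul_lt_mul_of_pos_right (pow_lt_pow_right₀ (by norm_num) hk') (by linarith)
          rw [if_pos k2]
          have k3 := cst_nonneg (L := 2 ^ k * Λ + 2) ht
          refine mul_le_of_le_one_right k3 ?_
          split_ifs
          · exact le_rfl
          · exact th_le _ _
        have k4 := sum_cst_le ht (2 ^ K * Λ) K (2 * Ef (dl t) (min (X i) l)) (by linarith) (by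
          intro k hk _
          apply Ff_le hd (by positivity) (hz i) (by norm_num)
          have k5 : (2:ℝ) ^ k * Λ ≤ 2 ^ K * Λ / 2 := by
            have k6 : (2:ℝ) ^ k * 2 ≤ 2 ^ K := by
              rw [← pow_succ]; exact pow_le_pow_right₀ (by norm_num) hk
            nlinarith
          have k7 : (2 ^ K - 1) * Λ = 2 ^ K * Λ - Λ := by ring
          rcases le_total (X i) l with k8 | k8
          · rw [min_eq_left k8]
            have := hX0 i
            change 2 ^ k * Λ ≤ _
            linarith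
          · rw [min_eq_right k8]
            change 2 ^ k * Λ ≤ _
            linarith)
        refine k1.trans (k4.trans (le_of_eq ?_))
        ring
    have hB : costB t Λ (K + 2) (X i) * (if i ∈ H then (1:ℝ) else
        th (2 ^ K * Λ) (2 ^ (K + 2) * Λ)) ≤ 1236000 * Real.sqrt t * Ef (dl t) (min (X i) l) := by
      refine (mul_le_of_le_one_right (costB_nonneg ht _ _ _) (hthle i)).trans ?_
      refine (costB_le ht (K + 2) (X i) (hX0 i)).trans ?_
      have k1 : Ef (dl t) (min (X i) (2 ^ (K + 2) * Λ)) ≤ 2 * Ef (dl t) (min (X i) l) := by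
        refine le_trans ?_ (Ef_double hd (hz i))
        apply Ef_mono hd (le_min (hX0 i) (by positivity))
        rcases le_total (X i) l with k8 | k8
        · rw [min_eq_left k8]
          refine (min_le_left _ _).trans ?_
          have := hX0 i
          linarith
        · rw [min_eq_right k8]
          refine (min_le_right _ _).trans ?_
          rw [e4]; linarith
      have k2 := mul_le_mul_of_nonneg_left k1 (by positivity : 0 ≤ 618000 * Real.sqrt t)
      refine k2.trans (le_of_eq ?_)
      ring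
    have h7 := z3 i
    have h8 : 0 ≤ Real.sqrt t * Ef (dl t) (min (X i) l) := by positivity
    nlinarith
  refine ⟨z, z1, hrow, fun Y hY => ?_⟩
  have hEY := Ef_ge_one hd hY
  -- the first level which matters
  have hex : ∃ k : ℕ, 1 ≤ k ∧ 4 * Y + 5 ≤ 2 ^ k * Λ := by
    obtain ⟨k, hk⟩ := pow_unbounded_of_one_lt (4 * Y + 5) (by norm_num : (1:ℝ) < 2)
    refine ⟨k + 1, by omega, ?_⟩
    have : (2:ℝ) ^ k ≤ 2 ^ (k + 1) := pow_le_pow_right₀ (by norm_num) (by omega)
    have h7 : (0:ℝ) < 2 ^ (k + 1) := by positivity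
    nlinarith
  set q := Nat.find hex with hq
  obtain ⟨hq1, hq2⟩ := Nat.find_spec hex
  rw [← hq] at hq1 hq2
  have hmin : ∀ k, 1 ≤ k → k < q → (2:ℝ) ^ k * Λ < 4 * Y + 5 := by
    intro k hk1 hk2
    have := Nat.find_min hex hk2
    push Not at this
    exact this hk1
  rcases Nat.lt_or_ge K q with hKq | hKq
  · -- no row exceeds the bound
    have hsup : Ef (dl t) l ≤ 6 * Ef (dl t) Y := by
      rcases Nat.eq_zero_or_pos K with h7 | h7
      · have h8 : l ≤ 4 * Λ := by
          rw [h7] at hK2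
          norm_num at hK2
          linarith
        have h9 := (Ef_mono hd hl0 h8).trans (Ef_Lam hd)
        linarith
      · have h8 := hmin K h7 hKq
        have h9 : l ≤ 25 * (1 + Y) := by rw [e2] at hK2; linarith
        exact (Ef_mono hd hl0 h9).trans (Ef_shift hd hY)
    have hempty : (Finset.univ.filter (fun i => 5000000000 * Real.sqrt t * Ef (dl t) Y <
        |∑ j, a i j * (z j - x₀ j)|)) = ∅ := by
      rw [Finset.filter_eq_empty_iff]
      intro i _ hcon
      have k1 := hrow i
      have k2 : Ef (dl t) (min (X i) l) ≤ 6 * Ef (dl t) Y :=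
        (Ef_mono hd (hz i) (min_le_right _ _)).trans hsup
      have k3 := mul_le_mul_of_nonneg_left k2 (by positivity : 0 ≤ 2000000 * Real.sqrt t)
      have k4 : 0 < Real.sqrt t * Ef (dl t) Y := by positivity
      nlinarith
    rw [hempty]
    simp [(Real.exp_pos _).le]
  · -- the heavy rows
    set Bad : Finset I := (Finset.Ico q K).biUnion D ∪ H with hBad
    have hsub : (Finset.univ.filter (fun i => 5000000000 * Real.sqrt t * Ef (dl t) Y <
        |∑ j, a i j * (z j - x₀ j)|)) ⊆ Bad := by
      intro i hi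
      rw [Finset.mem_filter] at hi
      by_contra hcon
      rw [hBad, Finset.mem_union, Finset.mem_biUnion] at hcon
      push Not at hcon
      obtain ⟨hc1, hc2⟩ := hcon
      have k1 : |∑ j, a i j * (x j - x₀ j)| ≤ 865200 * Real.sqrt t * Ef (dl t) Y +
          337510400 * Real.sqrt t := by
        refine (h6 i).trans ?_
        have k2 : ∀ k ∈ range K, cst t (2 ^ k * Λ + 2) *
            (if i ∈ D k then 1 else th (2 ^ k * Λ) (2 ^ k * Λ)) ≤
            (if 2 ^ k * Λ < 2 ^ q * Λ then cst t (2 ^ k * Λ + 2) else 0) +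
              cst t (2 ^ k * Λ + 2) * th (2 ^ k * Λ) (2 ^ k * Λ) := by
          intro k hk
          have hk' := Finset.mem_range.mp hk
          have k3 := cst_nonneg (L := 2 ^ k * Λ + 2) ht
          have k4 : 0 ≤ th (2 ^ k * Λ) (2 ^ k * Λ) := (th_pos (by positivity)).le
          rcases Nat.lt_or_ge k q with k5 | k5
          · have k6 : (2:ℝ) ^ k * Λ < 2 ^ q * Λ :=
              mul_lt_mul_of_pos_right (pow_lt_pow_right₀ (by norm_num) k5) (by linarith)
            rw [if_pos k6]
            have k7 : cst t (2 ^ k * Λ + 2) *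
              (if i ∈ D k then 1 else th (2 ^ k * Λ) (2 ^ k * Λ)) ≤ cst t (2 ^ k * Λ + 2) := by
              refine mul_le_of_le_one_right k3 ?_
              split_ifs
              · exact le_rfl
              · exact th_le _ _
            have k8 := mul_nonneg k3 k4
            linarith
          · rw [if_neg (hc1 k (Finset.mem_Ico.mpr ⟨k5, hk'⟩))]
            have k6 : 0 ≤ (if 2 ^ k * Λ < 2 ^ q * Λ then cst t (2 ^ k * Λ + 2) else 0) := by
              split_ifs
              · exact k3
              · exact le_rfl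
            linarith
        refine (Finset.sum_le_sum k2).trans ?_
        rw [Finset.sum_add_distrib]
        apply add_le_add
        · have k9 := sum_cst_le ht (2 ^ q * Λ) K (3 * Ef (dl t) Y) (by linarith) (by
            intro k _ hlt
            have hkq : k < q := by
              by_contra h9
              push Not at h9
              have h10 : (2:ℝ) ^ q * Λ ≤ 2 ^ k * Λ :=
                mul_le_mul_of_nonneg_right (pow_le_pow_right₀ (by norm_num) h9) (by linarith)
              exact absurd hlt (not_lt.mpr h10)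
            rcases Nat.eq_zero_or_pos k with h9 | h9
            · subst h9
              rw [pow_zero, one_mul]
              have := Ff_Lam_le hd
              linarith
            · apply Ff_le hd (by positivity) hY (by norm_num)
              have := hmin k h9 hkq
              change 2 ^ k * Λ ≤ _
              linarith)
          refine k9.trans (le_of_eq ?_)
          ring
        · exact sum_th_le ht K
      have k5 := z3 i
      rw [if_neg hc2] at k5
      have k6 := costB_th_le ht K (X i) (hX0 i)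
      have k7 : |∑ j, a i j * (z j - x₀ j)| ≤ 865200 * Real.sqrt t * Ef (dl t) Y +
          337510400 * Real.sqrt t + 618000 * 14 * 512 * Real.sqrt t := by
        rw [split_sum a x₀ x z i]
        refine (abs_add_le _ _).trans (add_le_add k1 (k5.trans k6))
      have k8 : Real.sqrt t * 1 ≤ Real.sqrt t * Ef (dl t) Y :=
        mul_le_mul_of_nonneg_left hEY hst
      have k9 := hi.2
      nlinarith
    have hcard : ((Bad.card : ℕ) : ℝ) ≤ Real.exp (l - Y) := by
      have k1 : ((Bad.card : ℕ) : ℝ) ≤ ∑ k ∈ Finset.Ico q (q + (K + 1 - q)),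
          Real.exp l * Real.exp (Λ - 3 / 4 * (2 ^ k * Λ)) := by
        have e5 : q + (K + 1 - q) = K + 1 := by omega
        rw [e5, Finset.sum_Ico_succ_top hKq]
        have k2 : ((Bad.card : ℕ) : ℝ) ≤ ((∑ k ∈ Finset.Ico q K, (D k).card : ℕ) : ℝ) + H.card := by
          have k3 : Bad.card ≤ (∑ k ∈ Finset.Ico q K, (D k).card) + H.card :=
            (Finset.card_union_le _ _).trans (Nat.add_le_add_right Finset.card_biUnion_le _)
          exact_mod_cast k3
        refine k2.trans (add_le_add ?_ ?_)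
        · push_cast
          apply Finset.sum_le_sum
          intro k hk
          rw [← Real.exp_add, ← add_sub_assoc]
          exact h4 k (Finset.mem_Ico.mp hk).2
        · rw [← Real.exp_add, ← add_sub_assoc]
          exact hHcard
      rw [← Finset.mul_sum] at k1
      have k4 := sum_bad Λ hΛ (K + 1 - q) q hq1
      have k5 : 3 * Real.exp (-(2 ^ q * Λ) / 4) ≤ Real.exp (-Y) := by
        have k6 : Real.exp (-(2 ^ q * Λ) / 4) ≤ Real.exp (-Y) * Real.exp (-(5 / 4)) := by
          rw [← Real.exp_add]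
          exact Real.exp_le_exp.2 (by linarith)
        have k7 : 3 * Real.exp (-(5 / 4)) ≤ 1 := by
          have k8 : (3:ℝ) ≤ Real.exp (5 / 4) := by
            have := Real.quadratic_le_exp_of_nonneg (by norm_num : (0:ℝ) ≤ 5 / 4)
            linarith
          rw [Real.exp_neg, ← div_eq_mul_inv, div_le_one (Real.exp_pos _)]
          exact k8
        have k9 := Real.exp_pos (-Y)
        nlinarith
      refine k1.trans ?_
      rw [sub_eq_add_neg, Real.exp_add]
      exact mul_le_mul_of_nonneg_left (k4.trans k5) (Real.exp_pos _).le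
    have k1 : ((Finset.univ.filter (fun i => 5000000000 * Real.sqrt t * Ef (dl t) Y <
        |∑ j, a i j * (z j - x₀ j)|)).card : ℝ) ≤ Bad.card := by
      exact_mod_cast Finset.card_le_card hsub
    exact k1.trans hcard

open scoped Classical in
/-- **Signings with individual bounds for the rows and with few large rows.** -/
theorem main {I J : Type} [Fintype I] [Fintype J] (a : I → J → ℝ) (t : ℝ) (ht : 1 ≤ t)
    (a1 : ∀ i j, |a i j| ≤ 1) (col : ∀ j, ∑ i, a i j ^ 2 ≤ t) (X : I → ℝ) (hX0 : ∀ i, 0 ≤ X i)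
    (hX : ∑ i, Real.exp (-X i) ≤ 1) (x₀ : J → ℝ) (hx₀ : ∀ j, |x₀ j| ≤ 1) (N : ℕ)
    (hN : N = min (Fintype.card I) (Fintype.card J)) :
    ∃ x : J → ℝ, (∀ j, |x j| = 1) ∧
      (∀ i, |∑ j, a i j * (x j - x₀ j)| ≤
        2000000 * Real.sqrt t * Ef (dl t) (min (X i) (Real.log N))) ∧
      ∀ Y, 0 ≤ Y → ((Finset.univ.filter (fun i => 5000000000 * Real.sqrt t * Ef (dl t) Y <
        |∑ j, a i j * (x j - x₀ j)|)).card : ℝ) ≤ N * Real.exp (-Y) := by
  have hd := dl_pos ht
  have hst1 : 1 ≤ Real.sqrt t := Real.one_le_sqrt.2 ht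
  have hlog : 0 ≤ Real.log N := Real.log_natCast_nonneg N
  -- a signing with a uniform bound is enough
  have huni : ∀ x : J → ℝ, (∀ j, |x j| = 1) →
      (∀ i, |∑ j, a i j * (x j - x₀ j)| ≤ 82400 * Real.sqrt t) →
      (∀ i, |∑ j, a i j * (x j - x₀ j)| ≤
        2000000 * Real.sqrt t * Ef (dl t) (min (X i) (Real.log N))) ∧
      ∀ Y, 0 ≤ Y → ((Finset.univ.filter (fun i => 5000000000 * Real.sqrt t * Ef (dl t) Y <
        |∑ j, a i j * (x j - x₀ j)|)).card : ℝ) ≤ N * Real.exp (-Y) := by
    intro x _ h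
    refine ⟨fun i => (h i).trans ?_, fun Y hY => ?_⟩
    · have := Ef_ge_one hd (le_min (hX0 i) hlog)
      nlinarith
    · have hempty : (Finset.univ.filter (fun i => 5000000000 * Real.sqrt t * Ef (dl t) Y <
          |∑ j, a i j * (x j - x₀ j)|)) = ∅ := by
        rw [Finset.filter_eq_empty_iff]
        intro i _ hcon
        have h1 := h i
        have := Ef_ge_one hd hY
        nlinarith
      rw [hempty, Finset.card_empty, Nat.cast_zero]
      positivity
  rcases Nat.eq_zero_or_pos N with h0 | h0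
  · refine ⟨fun _ => 1, fun _ => abs_one, huni _ (fun _ => abs_one) fun i => ?_⟩
    have h1 : Fintype.card J = 0 := by
      have : 0 < Fintype.card I := Fintype.card_pos_iff.mpr ⟨i⟩
      omega
    have : IsEmpty J := Fintype.card_eq_zero_iff.mp h1
    rw [Finset.univ_eq_empty, Finset.sum_empty, abs_zero]
    positivity
  · obtain ⟨y, hy1, hy2, hy3⟩ := reduce a _ x₀ hx₀ le_rfl
    have hN' : (0:ℝ) < N := by exact_mod_cast h0
    have hal : ((alive y : Finset J).card : ℝ) ≤ Real.exp (Real.log N) := by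
      rw [Real.exp_log hN']
      have h1 : (alive y : Finset J).card ≤ N := by
        rw [hN]
        exact le_min hy3 (Finset.card_le_univ _)
      exact_mod_cast h1
    have hsum : ∀ (x : J → ℝ) (i : I),
        ∑ j, a i j * (x j - x₀ j) = ∑ j, a i j * (x j - y j) := by
      intro x i
      rw [split_sum a x₀ y x i, hy2 i, zero_add]
    rcases lt_or_ge (Real.log N) (2 * Lam (dl t)) with h1 | h1
    · obtain ⟨x, k1, k2⟩ := short a t ht a1 col y hy1 (hal.trans (Real.exp_le_exp.2 h1.le))
      exact ⟨x, k1, huni x k1 fun i => by rw [hsum]; exact k2 i⟩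
    · obtain ⟨x, k1, k2, k3⟩ := long a t ht a1 col X hX0 (rows_of_weights X hX) y hy1
        (Real.log N) hal h1
      refine ⟨x, k1, fun i => by rw [hsum]; exact k2 i, fun Y hY => ?_⟩
      have k4 := k3 Y hY
      rw [sub_eq_add_neg, Real.exp_add, Real.exp_log hN'] at k4
      simp only [hsum]
      exact k4

end Pool.Agent.L0h27.Kom
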