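import Pool.Agent.N243.Rows

/-!
# The cost function
-/

set_option autoImplicit false

namespace Pool.Agent.L0h27.Kom

open Finset Real Pool.Agent.N243

/-- `(1 + log t)^(3/2) / √t` -/
noncomputable def dl (t : ℝ) : ℝ := (1 + Real.log t) ^ (3 / 2 : ℝ) / Real.sqrt t

/-- The bound `min ((1 + x)^(1/4)) (1 + dl √x)`. -/
noncomputable def Ef (d x : ℝ) : ℝ := min ((1 + x) ^ (1 / 4 : ℝ)) (1 + d * Real.sqrt x)

/-- `min (dl √b) (b^(1/4))` -/
noncomputable def Ff (d b : ℝ) : ℝ := min (d * Real.sqrt b) (b ^ (1 / 4 : ℝ))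

/-- the scale `max 1 (1 / d ^ 2)` -/
noncomputable def Lam (d : ℝ) : ℝ := max 1 (1 / d ^ 2)

theorem dl_pos {t : ℝ} (ht : 1 ≤ t) : 0 < dl t := by
  unfold dl
  have := Real.log_nonneg ht
  positivity

theorem Lam_ge (d : ℝ) : 1 ≤ Lam d := le_max_left _ _

theorem Lam_sq {d : ℝ} (hd : 0 < d) : 1 ≤ d * Real.sqrt (Lam d) := by
  have h1 : 1 / d ^ 2 ≤ Lam d := le_max_right _ _
  have h2 : 1 / d ≤ Real.sqrt (Lam d) := by
    apply Real.le_sqrt_of_sq_le
    rw [div_pow, one_pow]; exact h1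
  calc (1:ℝ) = d * (1 / d) := by field_simp
    _ ≤ _ := mul_le_mul_of_nonneg_left h2 hd.le

theorem Ff_mono {d : ℝ} (hd : 0 < d) {b c : ℝ} (hb : 0 ≤ b) (h : b ≤ c) : Ff d b ≤ Ff d c := by
  unfold Ff
  apply min_le_min
  · exact mul_le_mul_of_nonneg_left (Real.sqrt_le_sqrt h) hd.le
  · exact Real.rpow_le_rpow hb h (by norm_num)

theorem Ff_nonneg {d : ℝ} (hd : 0 < d) {b : ℝ} (hb : 0 ≤ b) : 0 ≤ Ff d b := by
  unfold Ff; apply le_min <;> positivity

theorem Ff_Lam_le {d : ℝ} (hd : 0 < d) : Ff d (Lam d) ≤ 1 := by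
  unfold Ff Lam
  rcases le_total 1 (1 / d ^ 2) with h | h
  · rw [max_eq_right h]
    refine (min_le_left _ _).trans ?_
    rw [Real.sqrt_div (by norm_num), Real.sqrt_one, Real.sqrt_sq hd.le]
    apply le_of_eq; field_simp
  · rw [max_eq_left h]
    refine (min_le_right _ _).trans ?_
    rw [Real.one_rpow]

/-- doubling -/
theorem Ff_double {d : ℝ} (hd : 0 < d) {b : ℝ} (hb : 0 ≤ b) :
    (7 / 6 : ℝ) * Ff d b ≤ Ff d (2 * b) := by
  unfold Ff
  apply le_min
  · have h1 : (7 / 6 : ℝ) ≤ Real.sqrt 2 := by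
      apply Real.le_sqrt_of_sq_le; norm_num
    have h2 : Real.sqrt (2 * b) = Real.sqrt 2 * Real.sqrt b := Real.sqrt_mul (by norm_num) _
    rw [h2]
    calc (7 / 6 : ℝ) * min (d * √b) (b ^ (1 / 4 : ℝ)) ≤ (7 / 6 : ℝ) * (d * √b) :=
          mul_le_mul_of_nonneg_left (min_le_left _ _) (by norm_num)
      _ ≤ Real.sqrt 2 * (d * √b) := mul_le_mul_of_nonneg_right h1 (by positivity)
      _ = _ := by ring
  · have h1 : (7 / 6 : ℝ) ≤ 2 ^ (1 / 4 : ℝ) := by
      have h3 : (7 / 6 : ℝ) = ((7 / 6 : ℝ) ^ (4:ℕ)) ^ (1 / 4 : ℝ) := by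
        rw [← Real.rpow_natCast, ← Real.rpow_mul (by norm_num)]; norm_num
      rw [h3]
      exact Real.rpow_le_rpow (by norm_num) (by norm_num) (by norm_num)
    rw [Real.mul_rpow (by norm_num) hb]
    calc (7 / 6 : ℝ) * min (d * √b) (b ^ (1 / 4 : ℝ)) ≤ (7 / 6 : ℝ) * (b ^ (1 / 4 : ℝ)) :=
          mul_le_mul_of_nonneg_left (min_le_right _ _) (by norm_num)
      _ ≤ _ := mul_le_mul_of_nonneg_right h1 (by positivity)

theorem Ef_ge_one {d : ℝ} (hd : 0 < d) {x : ℝ} (hx : 0 ≤ x) : 1 ≤ Ef d x := by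
  unfold Ef
  apply le_min
  · exact Real.one_le_rpow (by linarith) (by norm_num)
  · have : 0 ≤ d * Real.sqrt x := by positivity
    linarith

theorem Ef_mono {d : ℝ} (hd : 0 < d) {x y : ℝ} (hx : 0 ≤ x) (h : x ≤ y) : Ef d x ≤ Ef d y := by
  unfold Ef
  apply min_le_min
  · exact Real.rpow_le_rpow (by linarith) (by linarith) (by norm_num)
  · have := mul_le_mul_of_nonneg_left (Real.sqrt_le_sqrt h) hd.le
    linarith

theorem quarter_le {x : ℝ} (hx : 0 ≤ x) : (1 + x) ^ (1 / 4 : ℝ) ≤ 1 + Real.sqrt x := by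
  have h0 := Real.sqrt_nonneg x
  have h1 : 1 + x ≤ (1 + Real.sqrt x) ^ (4 : ℕ) := by
    have h2 : x = Real.sqrt x ^ 2 := (Real.sq_sqrt hx).symm
    nlinarith [sq_nonneg (Real.sqrt x), mul_nonneg h0 h0, mul_nonneg (mul_nonneg h0 h0) h0,
      mul_nonneg (mul_nonneg (mul_nonneg h0 h0) h0) h0]
  calc (1 + x) ^ (1 / 4 : ℝ) ≤ ((1 + Real.sqrt x) ^ (4 : ℕ)) ^ (1 / 4 : ℝ) :=
        Real.rpow_le_rpow (by linarith) h1 (by norm_num)
    _ = 1 + Real.sqrt x := by
        rw [← Real.rpow_natCast, ← Real.rpow_mul (by positivity)]; norm_num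

/-- comparison of the two functions: constant `c ^ 2` -/
theorem Ff_le {d : ℝ} (hd : 0 < d) {b x c : ℝ} (hb : 0 ≤ b) (hx : 0 ≤ x) (hc : 1 ≤ c)
    (h : b ≤ c ^ 2 * (1 + x)) : Ff d b ≤ c * Ef d x := by
  have hc0 : 0 ≤ c := by linarith
  have hq : b ^ (1 / 4 : ℝ) ≤ c * (1 + x) ^ (1 / 4 : ℝ) := by
    calc b ^ (1 / 4 : ℝ) ≤ (c ^ 2 * (1 + x)) ^ (1 / 4 : ℝ) :=
          Real.rpow_le_rpow hb h (by norm_num)
      _ = (c ^ 2) ^ (1 / 4 : ℝ) * (1 + x) ^ (1 / 4 : ℝ) :=
          Real.mul_rpow (by positivity) (by linarith)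
      _ ≤ c * (1 + x) ^ (1 / 4 : ℝ) := by
          apply mul_le_mul_of_nonneg_right _ (by positivity)
          calc (c ^ 2) ^ (1 / 4 : ℝ) ≤ (c ^ 4) ^ (1 / 4 : ℝ) := by
                apply Real.rpow_le_rpow (by positivity) _ (by norm_num)
                exact pow_le_pow_right₀ hc (by norm_num)
            _ = c := by
                rw [← Real.rpow_natCast, ← Real.rpow_mul hc0]; norm_num
  have hs : Real.sqrt b ≤ c * (1 + Real.sqrt x) := by
    rw [Real.sqrt_le_left (by positivity)]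
    refine h.trans ?_
    rw [mul_pow]
    apply mul_le_mul_of_nonneg_left _ (by positivity)
    have h2 : Real.sqrt x ^ 2 = x := Real.sq_sqrt hx
    nlinarith [Real.sqrt_nonneg x]
  unfold Ef
  rw [mul_min_of_nonneg _ _ hc0]
  apply le_min
  · unfold Ff; exact (min_le_right _ _).trans hq
  · rcases le_total d 1 with h1 | h1
    · unfold Ff
      refine (min_le_left _ _).trans ?_
      calc d * Real.sqrt b ≤ d * (c * (1 + Real.sqrt x)) := mul_le_mul_of_nonneg_left hs hd.le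
        _ = c * (d + d * Real.sqrt x) := by ring
        _ ≤ _ := mul_le_mul_of_nonneg_left (by linarith) hc0
    · unfold Ff
      refine (min_le_right _ _).trans (hq.trans ?_)
      apply mul_le_mul_of_nonneg_left _ hc0
      refine (quarter_le hx).trans ?_
      have := mul_le_mul_of_nonneg_right h1 (Real.sqrt_nonneg x)
      linarith

theorem Ef_double {d : ℝ} (hd : 0 < d) {x : ℝ} (hx : 0 ≤ x) : Ef d (4 * x) ≤ 2 * Ef d x := by
  unfold Ef
  rw [mul_min_of_nonneg _ _ (by norm_num)]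
  apply min_le_min
  · calc (1 + 4 * x) ^ (1 / 4 : ℝ) ≤ (2 ^ (4:ℕ) * (1 + x)) ^ (1 / 4 : ℝ) :=
          Real.rpow_le_rpow (by linarith) (by linarith) (by norm_num)
      _ = 2 * (1 + x) ^ (1 / 4 : ℝ) := by
          rw [Real.mul_rpow (by norm_num) (by linarith), ← Real.rpow_natCast,
            ← Real.rpow_mul (by norm_num)]
          norm_num
  · rw [Real.sqrt_mul (by norm_num), show Real.sqrt 4 = 2 by
      rw [show (4:ℝ) = 2 ^ 2 by norm_num]; exact Real.sqrt_sq (by norm_num)]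
    have : 0 ≤ d * Real.sqrt x := by positivity
    linarith

/-- the cost of a phase -/
theorem cst_le_Ff {t : ℝ} (ht : 1 ≤ t) {b : ℝ} (hb : Lam (dl t) ≤ b) :
    cst t (b + 2) ≤ 41200 * Real.sqrt t * Ff (dl t) b := by
  have hd := dl_pos ht
  have hb1 : 1 ≤ b := (Lam_ge _).trans hb
  have hst : 1 ≤ Real.sqrt t := Real.one_le_sqrt.2 ht
  have hdb : 1 ≤ dl t * Real.sqrt b :=
    (Lam_sq hd).trans (mul_le_mul_of_nonneg_left (Real.sqrt_le_sqrt hb) hd.le)
  have h960 : 960 * (b + 2) ≤ 54 ^ 2 * b := by linarith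
  have hs : Real.sqrt (960 * (b + 2)) ≤ 54 * Real.sqrt b := by
    rw [Real.sqrt_le_left (by positivity), mul_pow, Real.sq_sqrt (by linarith)]
    linarith
  unfold cst Ff
  rw [mul_min_of_nonneg _ _ (by positivity)]
  apply le_min
  · refine (min_le_left _ _).trans ?_
    have e : (1 + Real.log t) ^ (3 / 2 : ℝ) = dl t * Real.sqrt t := by
      unfold dl; field_simp
    rw [e]
    have h1 : 753 * Real.sqrt (960 * (b + 2)) * (dl t * Real.sqrt t) ≤
        753 * (54 * Real.sqrt b) * (dl t * Real.sqrt t) := by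
      apply mul_le_mul_of_nonneg_right _ (by positivity)
      exact mul_le_mul_of_nonneg_left hs (by norm_num)
    have h2 : Real.sqrt t * 1 ≤ Real.sqrt t * (dl t * Real.sqrt b) :=
      mul_le_mul_of_nonneg_left hdb (by positivity)
    nlinarith
  · refine (min_le_right _ _).trans ?_
    have h3 : Real.sqrt (Real.sqrt (960 * (b + 2))) ≤ 8 * b ^ (1 / 4 : ℝ) := by
      rw [Real.sqrt_le_left (by positivity), mul_pow]
      have e3 : (b ^ (1 / 4 : ℝ)) ^ 2 = Real.sqrt b := by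
        rw [← Real.rpow_natCast, ← Real.rpow_mul (by linarith), Real.sqrt_eq_rpow]
        norm_num
      rw [e3]
      have := Real.sqrt_nonneg b
      linarith
    have h4 : 0 ≤ b ^ (1 / 4 : ℝ) := by positivity
    calc 520 * Real.sqrt (Real.sqrt (960 * (b + 2))) * Real.sqrt t
        ≤ 520 * (8 * b ^ (1 / 4 : ℝ)) * Real.sqrt t := by
          apply mul_le_mul_of_nonneg_right _ (by positivity)
          exact mul_le_mul_of_nonneg_left h3 (by norm_num)
      _ = 4160 * (Real.sqrt t * b ^ (1 / 4 : ℝ)) := by ring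
      _ ≤ 41200 * (Real.sqrt t * b ^ (1 / 4 : ℝ)) := by
          apply mul_le_mul_of_nonneg_right (by norm_num) (by positivity)
      _ = _ := by ring

/-- sum of the costs of the phases below `M` -/
theorem geo {d : ℝ} (hd : 0 < d) {Λ : ℝ} (hΛ : 0 ≤ Λ) (y : ℝ) : ∀ (K : ℕ) (M : ℝ), 0 ≤ M →
    (∀ k < K, 2 ^ k * Λ < y → Ff d (2 ^ k * Λ) ≤ M) →
    ∑ k ∈ range K, (if 2 ^ k * Λ < y then Ff d (2 ^ k * Λ) else 0) ≤ 7 * M := by
  intro K
  induction K with
  | zero => intro M hM _; simp; exact hM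
  | succ K ih =>
    intro M hM h
    rw [Finset.sum_range_succ]
    by_cases hK : 2 ^ K * Λ < y
    · rw [if_pos hK]
      have h1 := ih (6 / 7 * Ff d (2 ^ K * Λ)) (by
        have := Ff_nonneg hd (b := 2 ^ K * Λ) (by positivity)
        positivity) (by
        intro k hk _
        have h2 := Ff_double hd (b := 2 ^ k * Λ) (by positivity)
        have h3 : Ff d (2 * (2 ^ k * Λ)) ≤ Ff d (2 ^ K * Λ) := by
          apply Ff_mono hd (by positivity)
          rw [← mul_assoc, ← pow_succ']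
          exact mul_le_mul_of_nonneg_right (pow_le_pow_right₀ (by norm_num) (by omega)) hΛ
        linarith)
      have h4 := h K (by omega) hK
      linarith
    · rw [if_neg hK, add_zero]
      exact ih M hM fun k hk => h k (by omega)

end Pool.Agent.L0h27.Kom
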