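import Pool.Agent.L0h27.Kom.StageA

/-!
# Signings of the rows: individual bounds and the profile
-/

set_option autoImplicit false

namespace Pool.Agent.L0h27.Kom

open Finset Real Pool.Agent.N243

open H167FK.Sys (alive)

theorem Ef_shift {d : ℝ} (hd : 0 < d) {Y : ℝ} (hY : 0 ≤ Y) :
    Ef d (25 * (1 + Y)) ≤ 6 * Ef d Y := by
  have hs := Real.sqrt_nonneg Y
  have hq : (1 + 25 * (1 + Y)) ^ (1 / 4 : ℝ) ≤ 3 * (1 + Y) ^ (1 / 4 : ℝ) := by
    calc (1 + 25 * (1 + Y)) ^ (1 / 4 : ℝ) ≤ ((3 : ℝ) ^ (4:ℕ) * (1 + Y)) ^ (1 / 4 : ℝ) :=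
          Real.rpow_le_rpow (by linarith) (by linarith) (by norm_num)
      _ = 3 * (1 + Y) ^ (1 / 4 : ℝ) := by
          rw [Real.mul_rpow (by norm_num) (by linarith), ← Real.rpow_natCast,
            ← Real.rpow_mul (by norm_num)]
          norm_num
  have hq0 : 0 ≤ (1 + Y) ^ (1 / 4 : ℝ) := by positivity
  unfold Ef
  rw [mul_min_of_nonneg _ _ (by norm_num)]
  apply le_min
  · refine (min_le_left _ _).trans ?_
    linarith
  · rcases le_total d 1 with h1 | h1
    · refine (min_le_right _ _).trans ?_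
      rw [Real.sqrt_mul (by norm_num), show Real.sqrt 25 = 5 by
        rw [show (25:ℝ) = 5 ^ 2 by norm_num]; exact Real.sqrt_sq (by norm_num)]
      have h2 : Real.sqrt (1 + Y) ≤ 1 + Real.sqrt Y := by
        rw [Real.sqrt_le_left (by positivity)]
        have h3 : Real.sqrt Y ^ 2 = Y := Real.sq_sqrt hY
        nlinarith
      have h4 := mul_le_mul_of_nonneg_left h2 hd.le
      nlinarith
    · refine (min_le_left _ _).trans (hq.trans ?_)
      have h5 := quarter_le hY
      have h6 := mul_le_mul_of_nonneg_right h1 hs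
      nlinarith

theorem Ef_Lam {d : ℝ} (hd : 0 < d) : Ef d (4 * Lam d) ≤ 3 := by
  unfold Ef Lam
  rcases le_total 1 (1 / d ^ 2) with h | h
  · rw [max_eq_right h]
    refine (min_le_right _ _).trans ?_
    rw [Real.sqrt_mul (by norm_num), Real.sqrt_div (by norm_num), Real.sqrt_one,
      Real.sqrt_sq hd.le, show Real.sqrt 4 = 2 by
      rw [show (4:ℝ) = 2 ^ 2 by norm_num]; exact Real.sqrt_sq (by norm_num)]
    apply le_of_eq; field_simp; norm_num
  · rw [max_eq_left h]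
    refine (min_le_left _ _).trans ?_
    calc (1 + 4 * 1 : ℝ) ^ (1 / 4 : ℝ) ≤ ((3 : ℝ) ^ (4:ℕ)) ^ (1 / 4 : ℝ) :=
          Real.rpow_le_rpow (by norm_num) (by norm_num) (by norm_num)
      _ = 3 := by rw [← Real.rpow_natCast, ← Real.rpow_mul (by norm_num)]; norm_num

/-- Sum of the costs. -/
theorem sum_cst_le {t : ℝ} (ht : 1 ≤ t) (y : ℝ) (K : ℕ) (M : ℝ) (hM : 0 ≤ M)
    (h : ∀ k < K, 2 ^ k * Lam (dl t) < y → Ff (dl t) (2 ^ k * Lam (dl t)) ≤ M) :
    ∑ k ∈ range K, (if 2 ^ k * Lam (dl t) < y then cst t (2 ^ k * Lam (dl t) + 2) else 0) ≤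
      288400 * Real.sqrt t * M := by
  have hd := dl_pos ht
  have hΛ := Lam_ge (dl t)
  have hst := Real.sqrt_nonneg t
  have h1 := geo hd (by linarith : 0 ≤ Lam (dl t)) y K M hM h
  calc _ ≤ ∑ k ∈ range K, 41200 * Real.sqrt t *
        (if 2 ^ k * Lam (dl t) < y then Ff (dl t) (2 ^ k * Lam (dl t)) else 0) := by
        apply Finset.sum_le_sum
        intro k _
        split_ifs
        · apply cst_le_Ff ht
          have : (1 : ℝ) ≤ 2 ^ k := one_le_pow₀ (by norm_num)
          nlinarith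
        · simp
    _ = 41200 * Real.sqrt t * ∑ k ∈ range K,
        (if 2 ^ k * Lam (dl t) < y then Ff (dl t) (2 ^ k * Lam (dl t)) else 0) := by
        rw [Finset.mul_sum]
    _ ≤ 41200 * Real.sqrt t * (7 * M) := mul_le_mul_of_nonneg_left h1 (by positivity)
    _ = _ := by ring

theorem costB_le {t : ℝ} (ht : 1 ≤ t) (K : ℕ) (X : ℝ) (hX : 0 ≤ X) :
    costB t (Lam (dl t)) K X ≤
      618000 * Real.sqrt t * Ef (dl t) (min X (2 ^ K * Lam (dl t))) := by
  have hd := dl_pos ht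
  have hΛ := Lam_ge (dl t)
  have hst := Real.sqrt_nonneg t
  set Λ := Lam (dl t) with hΛd
  have hz : 0 ≤ min X (2 ^ K * Λ) := le_min hX (by positivity)
  have hE := Ef_ge_one hd hz
  have h1 : cst t (Λ + 2) ≤ 41200 * Real.sqrt t := by
    refine (cst_le_Ff ht le_rfl).trans ?_
    have := Ff_Lam_le hd
    have h2 : 41200 * Real.sqrt t * Ff (dl t) Λ ≤ 41200 * Real.sqrt t * 1 :=
      mul_le_mul_of_nonneg_left this (by positivity)
    linarith
  have h2 := sum_cst_le ht (X + 4) K (2 * Ef (dl t) (min X (2 ^ K * Λ))) (by linarith) (by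
    intro k hk hlt
    apply Ff_le hd (by positivity) hz (by norm_num)
    have h3 : (2:ℝ) ^ k * Λ ≤ 2 ^ K * Λ :=
      mul_le_mul_of_nonneg_right (pow_le_pow_right₀ (by norm_num) hk.le) (by linarith)
    rcases le_total X (2 ^ K * Λ) with h4 | h4
    · rw [min_eq_left h4]; linarith
    · rw [min_eq_right h4]
      have : 0 ≤ 2 ^ K * Λ := by positivity
      linarith)
  unfold costB
  have h5 : Real.sqrt t * 1 ≤ Real.sqrt t * Ef (dl t) (min X (2 ^ K * Λ)) :=
    mul_le_mul_of_nonneg_left hE hst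
  nlinarith

/-- reduced cost of the second stage -/
theorem costB_th_le {t : ℝ} (ht : 1 ≤ t) (K : ℕ) (X : ℝ) (hX : 0 ≤ X) :
    costB t (Lam (dl t)) (K + 2) X * th (2 ^ K * Lam (dl t)) (2 ^ (K + 2) * Lam (dl t)) ≤
      618000 * 14 * 512 * Real.sqrt t := by
  have hd := dl_pos ht
  have hΛ := Lam_ge (dl t)
  have hst := Real.sqrt_nonneg t
  set Λ := Lam (dl t) with hΛd
  set b := 2 ^ K * Λ with hb
  have hK1 : (1:ℝ) ≤ 2 ^ K := one_le_pow₀ (by norm_num)
  have hb1 : 1 ≤ b := by nlinarith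
  have e4 : 2 ^ (K + 2) * Λ = 4 * b := by rw [hb, pow_add]; ring
  have h1 := costB_le ht (K + 2) X hX
  have hz : 0 ≤ min X (2 ^ (K + 2) * Λ) := le_min hX (by positivity)
  have h2 : Ef (dl t) (min X (2 ^ (K + 2) * Λ)) ≤ (5 * b) ^ (1 / 4 : ℝ) := by
    refine (Ef_mono hd hz (min_le_right _ _)).trans ?_
    unfold Ef
    refine (min_le_left _ _).trans ?_
    apply Real.rpow_le_rpow (by positivity) _ (by norm_num)
    rw [e4]; linarith
  have h3 : th b (2 ^ (K + 2) * Λ) ≤ (5760 * b) ^ (1 / 4 : ℝ) * Real.exp (-b / 16) := by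
    unfold th
    refine (min_le_right _ _).trans ?_
    apply mul_le_mul_of_nonneg_right _ (Real.exp_pos _).le
    unfold sp
    apply Real.rpow_le_rpow (by positivity) _ (by norm_num)
    rw [e4]; linarith
  have hq : (5 * b) ^ (1 / 4 : ℝ) * (5760 * b) ^ (1 / 4 : ℝ) ≤ 14 * Real.sqrt b := by
    rw [← Real.mul_rpow (by positivity) (by positivity)]
    calc (5 * b * (5760 * b)) ^ (1 / 4 : ℝ) ≤ ((14 : ℝ) ^ (4:ℕ) * b ^ (2:ℕ)) ^ (1 / 4 : ℝ) := by
          apply Real.rpow_le_rpow (by positivity) _ (by norm_num)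
          nlinarith
      _ = 14 * Real.sqrt b := by
          rw [Real.mul_rpow (by norm_num) (by positivity), ← Real.rpow_natCast,
            ← Real.rpow_mul (by norm_num), ← Real.rpow_natCast, ← Real.rpow_mul (by linarith),
            Real.sqrt_eq_rpow]
          norm_num
  have hth0 : 0 ≤ th b (2 ^ (K + 2) * Λ) := (th_pos (by positivity)).le
  calc _ ≤ (618000 * Real.sqrt t * (5 * b) ^ (1 / 4 : ℝ)) *
        ((5760 * b) ^ (1 / 4 : ℝ) * Real.exp (-b / 16)) := by
        apply mul_le_mul _ h3 hth0 (by positivity)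
        exact h1.trans (mul_le_mul_of_nonneg_left h2 (by positivity))
    _ = 618000 * Real.sqrt t * ((5 * b) ^ (1 / 4 : ℝ) * (5760 * b) ^ (1 / 4 : ℝ)) *
        Real.exp (-b / 16) := by ring
    _ ≤ 618000 * Real.sqrt t * (14 * Real.sqrt b) * Real.exp (-b / 16) := by
        apply mul_le_mul_of_nonneg_right _ (Real.exp_pos _).le
        exact mul_le_mul_of_nonneg_left hq (by positivity)
    _ = 618000 * 14 * Real.sqrt t * (Real.sqrt b * Real.exp (-b / 16)) := by ring
    _ ≤ 618000 * 14 * Real.sqrt t * 512 := by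
        apply mul_le_mul_of_nonneg_left _ (by positivity)
        refine (sqrt_exp_le hb1).trans ?_
        rw [div_le_iff₀ (by linarith)]
        linarith
    _ = _ := by ring

/-- sum of the reduced costs of the first stage -/
theorem sum_th_le {t : ℝ} (ht : 1 ≤ t) (K : ℕ) :
    ∑ k ∈ range K, cst t (2 ^ k * Lam (dl t) + 2) *
      th (2 ^ k * Lam (dl t)) (2 ^ k * Lam (dl t)) ≤ 337510400 * Real.sqrt t := by
  have hΛ := Lam_ge (dl t)
  have hst := Real.sqrt_nonneg t
  have h1 : ∀ k ∈ range K, cst t (2 ^ k * Lam (dl t) + 2) *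
      th (2 ^ k * Lam (dl t)) (2 ^ k * Lam (dl t)) ≤
      168755200 * Real.sqrt t * (1 / 2) ^ k := by
    intro k _
    have hk : (1:ℝ) ≤ 2 ^ k := one_le_pow₀ (by norm_num)
    refine (cst_th_le ht (by nlinarith)).trans ?_
    rw [div_le_iff₀ (by positivity)]
    have e : (1 / 2 : ℝ) ^ k * 2 ^ k = 1 := by rw [← mul_pow]; norm_num
    calc 41200 * 8 * 512 * Real.sqrt t = 168755200 * Real.sqrt t * ((1 / 2 : ℝ) ^ k * 2 ^ k) := by
          rw [e]; ring
      _ ≤ 168755200 * Real.sqrt t * ((1 / 2 : ℝ) ^ k * 2 ^ k) * Lam (dl t) := by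
          apply le_mul_of_one_le_right (by positivity) hΛ
      _ = _ := by ring
  refine (Finset.sum_le_sum h1).trans ?_
  rw [← Finset.mul_sum]
  have h2 : ∑ k ∈ range K, (1 / 2 : ℝ) ^ k ≤ 2 := by
    rw [geom_sum_eq (by norm_num)]
    have : (0:ℝ) ≤ (1 / 2) ^ K := by positivity
    rw [div_le_iff_of_neg (by norm_num)]
    linarith
  nlinarith

/-- sum of the numbers of heavy rows -/
theorem sum_bad (Λ : ℝ) (hΛ : 1 ≤ Λ) : ∀ (n K : ℕ), 1 ≤ K →
    ∑ k ∈ Finset.Ico K (K + n), Real.exp (Λ - 3 / 4 * (2 ^ k * Λ)) ≤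
      3 * Real.exp (-(2 ^ K * Λ) / 4) := by
  intro n
  induction n with
  | zero => intro K _; simp; positivity
  | succ n ih =>
    intro K hK
    have e1 : K + (n + 1) = (K + 1) + n := by ring
    rw [Finset.sum_eq_sum_Ico_succ_bot (by omega), e1]
    have h1 := ih (K + 1) (by omega)
    set b := 2 ^ K * Λ with hb
    have h2 : (2:ℝ) ≤ 2 ^ K := by
      calc (2:ℝ) = 2 ^ 1 := by norm_num
        _ ≤ 2 ^ K := pow_le_pow_right₀ (by norm_num) hK
    have hb2 : 2 * Λ ≤ b := mul_le_mul_of_nonneg_right h2 (by linarith)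
    have e2 : (2:ℝ) ^ (K + 1) * Λ = 2 * b := by rw [hb, pow_succ]; ring
    rw [e2] at h1
    have h3 : Real.exp (Λ - 3 / 4 * b) ≤ Real.exp (-b / 4) := Real.exp_le_exp.2 (by linarith)
    have h4 : Real.exp (-(2 * b) / 4) = Real.exp (-b / 4) * Real.exp (-b / 4) := by
      rw [← Real.exp_add]; congr 1; ring
    have h5 : Real.exp (-b / 4) ≤ 2 / 3 := by
      have h6 : Real.exp (-b / 4) ≤ Real.exp (-(1 / 2)) := Real.exp_le_exp.2 (by linarith)
      have h7 : Real.exp (-(1 / 2)) ≤ 2 / 3 := by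
        rw [Real.exp_neg, inv_le_comm₀ (Real.exp_pos _) (by norm_num)]
        have := Real.add_one_le_exp (1 / 2 : ℝ)
        linarith
      linarith
    have h8 := Real.exp_pos (-b / 4)
    rw [h4] at h1
    nlinarith

end Pool.Agent.L0h27.Kom
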