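import Pool.Agent.L0h27.Kom.StageB

/-!
# The first stage: phases of increasing length
-/

set_option autoImplicit false

namespace Pool.Agent.L0h27.Kom

open Finset Real Pool.Agent.N243

open H167FK.Sys (alive)

/-- the parameter `s` of a phase -/
noncomputable def sp (b : ℝ) : ℝ := (960 * (b + 2)) ^ (1 / 4 : ℝ)

theorem sp_pow {b : ℝ} (hb : 0 ≤ b) : sp b ^ 4 = 960 * (b + 2) := by
  unfold sp
  rw [← Real.rpow_natCast, ← Real.rpow_mul (by linarith)]
  norm_num

theorem sp_ge {b : ℝ} (hb : 0 ≤ b) : 1 ≤ sp b :=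
  Real.one_le_rpow (by linarith) (by norm_num)

/-- the reduced cost of a light row -/
noncomputable def th (b c : ℝ) : ℝ := min 1 (sp c * Real.exp (-b / 16))

theorem th_pos {b c : ℝ} (hc : 0 ≤ c) : 0 < th b c := by
  unfold th
  have := sp_ge hc
  apply lt_min one_pos
  positivity

theorem th_le (b c : ℝ) : th b c ≤ 1 := min_le_left _ _

theorem th_mass {t b c M : ℝ} (hc : 0 ≤ c) (h : M ≤ t * Real.exp (-b / 4)) :
    th b c = 1 ∨ M ≤ t * (th b c / sp c) ^ 4 := by
  have h1 := sp_ge hc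
  unfold th
  rcases le_total 1 (sp c * Real.exp (-b / 16)) with h2 | h2
  · left; exact min_eq_left h2
  · right
    rw [min_eq_right h2]
    have e : sp c * Real.exp (-b / 16) / sp c = Real.exp (-b / 16) := by
      field_simp
    rw [e, ← Real.exp_nat_mul]
    have e2 : ((4 : ℕ) : ℝ) * (-b / 16) = -b / 4 := by push_cast; ring
    rw [e2]
    exact h

/-- few rows are heavy -/
theorem card_heavy {I J : Type} [Fintype I] [Fintype J] (a : I → J → ℝ) (t : ℝ) (ht : 1 ≤ t)
    (col : ∀ j, ∑ i, a i j ^ 2 ≤ t) (A : Finset J) (μ c : ℝ) (hA : (A.card : ℝ) ≤ Real.exp c) :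
    ((Finset.univ.filter (fun i => t * Real.exp (-μ) < ∑ j ∈ A, a i j ^ 2)).card : ℝ) ≤
      Real.exp (c + μ) := by
  set D := Finset.univ.filter (fun i => t * Real.exp (-μ) < ∑ j ∈ A, a i j ^ 2) with hD
  have h1 : (D.card : ℝ) * (t * Real.exp (-μ)) ≤ ∑ i ∈ D, ∑ j ∈ A, a i j ^ 2 := by
    rw [← nsmul_eq_mul]
    apply Finset.card_nsmul_le_sum
    intro i hi
    rw [hD, Finset.mem_filter] at hi
    exact hi.2.le
  have h2 : ∑ i ∈ D, ∑ j ∈ A, a i j ^ 2 ≤ t * A.card := by
    calc _ ≤ ∑ i, ∑ j ∈ A, a i j ^ 2 :=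
          Finset.sum_le_univ_sum_of_nonneg fun i => Finset.sum_nonneg fun j _ => sq_nonneg _
      _ = ∑ j ∈ A, ∑ i, a i j ^ 2 := Finset.sum_comm
      _ ≤ ∑ _j ∈ A, t := Finset.sum_le_sum fun j _ => col j
      _ = t * A.card := by rw [Finset.sum_const, nsmul_eq_mul]; ring
  have h3 : (D.card : ℝ) * Real.exp (-μ) ≤ Real.exp c := by
    have h4 : t * ((D.card : ℝ) * Real.exp (-μ)) ≤ t * A.card := by linarith
    have h5 := le_of_mul_le_mul_left h4 (by linarith)
    exact h5.trans hA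
  calc (D.card : ℝ) = (D.card : ℝ) * Real.exp (-μ) * Real.exp μ := by
        rw [mul_assoc, ← Real.exp_add]; simp
    _ ≤ Real.exp c * Real.exp μ := mul_le_mul_of_nonneg_right h3 (Real.exp_pos _).le
    _ = _ := by rw [← Real.exp_add]

open scoped Classical in
/-- **The first stage.** -/
theorem stageA {I J : Type} [Fintype I] [Fintype J] (a : I → J → ℝ) (t : ℝ) (ht : 1 ≤ t)
    (a1 : ∀ i j, |a i j| ≤ 1) (col : ∀ j, ∑ i, a i j ^ 2 ≤ t) (X : I → ℝ)
    (hX : ∀ r : ℝ, ((Finset.univ.filter (fun i => X i ≤ r)).card : ℝ) ≤ Real.exp r)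
    (Λ : ℝ) (hΛ : 1 ≤ Λ) (l r : ℝ) (x₀ : J → ℝ) (hx₀ : ∀ j, |x₀ j| ≤ 1)
    (hal : ((alive x₀ : Finset J).card : ℝ) ≤ Real.exp l) :
    ∀ K : ℕ, r ≤ l - (2 ^ K - 1) * Λ - 4 →
    ∃ (x : J → ℝ) (D : ℕ → Finset I), (∀ j, |x j| ≤ 1) ∧ (∀ j, |x₀ j| = 1 → x j = x₀ j) ∧
      ((alive x : Finset J).card : ℝ) ≤ Real.exp (l - (2 ^ K - 1) * Λ) ∧
      (∀ k < K, ((D k).card : ℝ) ≤ Real.exp (l + Λ - 3 / 4 * (2 ^ k * Λ))) ∧
      (∀ i, X i ≤ r → ∑ j, a i j * (x j - x₀ j) = 0) ∧
      ∀ i, |∑ j, a i j * (x j - x₀ j)| ≤ ∑ k ∈ range K, cst t (2 ^ k * Λ + 2) *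
        (if i ∈ D k then 1 else th (2 ^ k * Λ) (2 ^ k * Λ)) := by
  intro K
  induction K with
  | zero =>
    intro _
    refine ⟨x₀, fun _ => ∅, hx₀, fun _ _ => rfl, ?_, fun k hk => absurd hk (Nat.not_lt_zero k),
      fun i _ => by simp, fun i => by simp⟩
    simpa using hal
  | succ K ih =>
    intro hr
    set b := 2 ^ K * Λ with hb
    have hb0 : 0 ≤ b := by positivity
    have e1 : (2 ^ (K + 1) - 1) * Λ = (2 ^ K - 1) * Λ + b := by rw [hb, pow_succ]; ring
    rw [e1] at hr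
    obtain ⟨x, D, h1, h2, h3, h4, h5, h6⟩ := ih (by linarith)
    set c := l - ((2 ^ K - 1) * Λ + b) with hc
    have e2 : l - (2 ^ K - 1) * Λ = b + c := by rw [hc]; ring
    rw [e2] at h3
    set H : Finset I := Finset.univ.filter
      (fun i => t * Real.exp (-(b / 4)) < ∑ j ∈ (alive x : Finset J), a i j ^ 2) with hH
    have hHcard : (H.card : ℝ) ≤ Real.exp (l + Λ - 3 / 4 * b) := by
      have := card_heavy a t ht col (alive x) (b / 4) (b + c) h3
      have e3 : b + c + b / 4 = l + Λ - 3 / 4 * b := by rw [hc, hb]; ring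
      rwa [e3] at this
    obtain ⟨y, y1, y2, y3, y4, y5⟩ := phase_b a t ht a1 col X hX (sp b) (sp_ge hb0)
      (fun i => if i ∈ H then 1 else th b b)
      (fun i => by
        split_ifs
        · exact one_pos
        · exact th_pos hb0)
      (fun i => by
        split_ifs
        · exact le_rfl
        · exact th_le b b) b c r hb0 (by rw [hc]; linarith) x h1 h3 (sp_pow hb0).ge (fun i => by
        by_cases hi : i ∈ H
        · left; rw [if_pos hi]
        · rw [if_neg hi]
          apply th_mass hb0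
          rw [hH, Finset.mem_filter] at hi
          push Not at hi
          have := hi (Finset.mem_univ i)
          rwa [neg_div])
    refine ⟨y, Function.update D K H, y1, fun j hj => ?_, ?_, fun k hk => ?_, fun i hi => ?_,
      fun i => ?_⟩
    · rw [y2 j (by rw [h2 j hj]; exact hj), h2 j hj]
    · rw [e1]; exact y5
    · by_cases hkK : k = K
      · subst hkK
        rw [Function.update_self]
        exact hHcard
      · rw [Function.update_of_ne hkK]
        exact h4 k (by omega)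
    · rw [split_sum a x₀ x y i, h5 i hi, y3 i hi, add_zero]
    · rw [split_sum a x₀ x y i, Finset.sum_range_succ]
      refine (abs_add_le _ _).trans (add_le_add ?_ ?_)
      · refine (h6 i).trans (le_of_eq ?_)
        apply Finset.sum_congr rfl
        intro k hk
        have : k ≠ K := by
          have := Finset.mem_range.mp hk
          omega
        rw [Function.update_of_ne this]
      · rw [Function.update_self]
        exact y4 i

/-- `√b e^(-b/16) ≤ 512 / b` -/
theorem sqrt_exp_le {b : ℝ} (hb : 1 ≤ b) : Real.sqrt b * Real.exp (-b / 16) ≤ 512 / b := by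
  have h1 : 1 + b / 16 + (b / 16) ^ 2 / 2 ≤ Real.exp (b / 16) :=
    Real.quadratic_le_exp_of_nonneg (by positivity)
  have h2 : b ^ 2 / 512 ≤ Real.exp (b / 16) := by nlinarith
  have h3 : Real.sqrt b ≤ b := by
    rw [Real.sqrt_le_left (by linarith)]; nlinarith
  have e : Real.exp (-b / 16) = (Real.exp (b / 16))⁻¹ := by
    rw [← Real.exp_neg]; congr 1; ring
  rw [e, ← div_eq_mul_inv, div_le_div_iff₀ (Real.exp_pos _) (by linarith)]
  calc Real.sqrt b * b ≤ b * b := mul_le_mul_of_nonneg_right h3 (by linarith)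
    _ = 512 * (b ^ 2 / 512) := by ring
    _ ≤ 512 * Real.exp (b / 16) := mul_le_mul_of_nonneg_left h2 (by norm_num)

/-- reduced costs of the phases of the first stage -/
theorem cst_th_le {t : ℝ} (ht : 1 ≤ t) {b : ℝ} (hb : Lam (dl t) ≤ b) :
    cst t (b + 2) * th b b ≤ 41200 * 8 * 512 * Real.sqrt t / b := by
  have hb1 : 1 ≤ b := (Lam_ge _).trans hb
  have h1 := cst_le_Ff ht hb
  have h2 : Ff (dl t) b ≤ b ^ (1 / 4 : ℝ) := by unfold Ff; exact min_le_right _ _
  have h3 : th b b ≤ sp b * Real.exp (-b / 16) := min_le_right _ _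
  have h4 : sp b ≤ 8 * b ^ (1 / 4 : ℝ) := by
    unfold sp
    calc (960 * (b + 2)) ^ (1 / 4 : ℝ) ≤ ((8 : ℝ) ^ (4:ℕ) * b) ^ (1 / 4 : ℝ) :=
          Real.rpow_le_rpow (by linarith) (by linarith) (by norm_num)
      _ = 8 * b ^ (1 / 4 : ℝ) := by
          rw [Real.mul_rpow (by norm_num) (by linarith), ← Real.rpow_natCast,
            ← Real.rpow_mul (by norm_num)]
          norm_num
  have hq : b ^ (1 / 4 : ℝ) * b ^ (1 / 4 : ℝ) = Real.sqrt b := by
    rw [← Real.rpow_add (by linarith), Real.sqrt_eq_rpow]; norm_num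
  have hq0 : 0 ≤ b ^ (1 / 4 : ℝ) := by positivity
  have hst := Real.sqrt_nonneg t
  calc cst t (b + 2) * th b b
      ≤ (41200 * Real.sqrt t * b ^ (1 / 4 : ℝ)) * ((8 * b ^ (1 / 4 : ℝ)) * Real.exp (-b / 16)) := by
        apply mul_le_mul
        · refine h1.trans ?_
          exact mul_le_mul_of_nonneg_left h2 (by positivity)
        · refine h3.trans ?_
          exact mul_le_mul_of_nonneg_right h4 (Real.exp_pos _).le
        · exact (th_pos (by linarith)).le
        · positivity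
    _ = 41200 * 8 * Real.sqrt t * (Real.sqrt b * Real.exp (-b / 16)) := by rw [← hq]; ring
    _ ≤ 41200 * 8 * Real.sqrt t * (512 / b) :=
        mul_le_mul_of_nonneg_left (sqrt_exp_le hb1) (by positivity)
    _ = _ := by ring

end Pool.Agent.L0h27.Kom
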