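import Pool.Agent.L0h27.Kom.Fun

/-!
# The second stage: the number of phases is doubly logarithmic
-/

set_option autoImplicit false

namespace Pool.Agent.L0h27.Kom

open Finset Real Pool.Agent.N243

open H167FK.Sys (alive)

theorem alive_sub {J : Type} [Fintype J] {x y : J → ℝ} (hx : ∀ j, |x j| ≤ 1)
    (h : ∀ j, |x j| = 1 → y j = x j) : (alive y : Finset J) ⊆ alive x := by
  intro j hj
  rw [mem_alive'] at hj ⊢
  by_contra hcon
  have h1 : |x j| = 1 := le_antisymm (hx j) (not_lt.mp hcon)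
  rw [h j h1, h1] at hj
  exact lt_irrefl _ hj

theorem mass_mono {I J : Type} [Fintype J] (a : I → J → ℝ) {x y : J → ℝ} (hx : ∀ j, |x j| ≤ 1)
    (h : ∀ j, |x j| = 1 → y j = x j) (i : I) :
    ∑ j ∈ (alive y : Finset J), a i j ^ 2 ≤ ∑ j ∈ (alive x : Finset J), a i j ^ 2 :=
  Finset.sum_le_sum_of_subset_of_nonneg (alive_sub hx h) fun _ _ _ => sq_nonneg _

theorem all_one {J : Type} [Fintype J] {y : J → ℝ} (hy : ∀ j, |y j| ≤ 1)
    (h : ((alive y : Finset J).card : ℝ) < 1) : ∀ j, |y j| = 1 := by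
  intro j
  have h1 : (alive y : Finset J).card < 1 := by exact_mod_cast h
  have h2 : (alive y : Finset J) = ∅ := Finset.card_eq_zero.mp (by omega)
  have h3 : j ∉ (alive y : Finset J) := by rw [h2]; simp
  rw [mem_alive'] at h3
  exact le_antisymm (hy j) (not_lt.mp h3)

theorem split_sum {I J : Type} [Fintype J] (a : I → J → ℝ) (x y z : J → ℝ) (i : I) :
    ∑ j, a i j * (z j - x j) = ∑ j, a i j * (y j - x j) + ∑ j, a i j * (z j - y j) := by
  rw [← Finset.sum_add_distrib]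
  exact Finset.sum_congr rfl fun _ _ => by ring

theorem exp_neg_two : Real.exp (-2) ≤ 0.14 := by
  have h1 := Real.exp_one_gt_d9
  have h2 : Real.exp (-2) = (Real.exp 1 ^ 2)⁻¹ := by
    rw [← Real.exp_nat_mul, ← Real.exp_neg]; norm_num
  rw [h2, inv_le_comm₀ (by positivity) (by norm_num)]
  nlinarith

theorem exp_neg_four : Real.exp (-4) ≤ 0.0196 := by
  have h2 : Real.exp (-4) = Real.exp (-2) * Real.exp (-2) := by
    rw [← Real.exp_add]; norm_num
  rw [h2]
  have := exp_neg_two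
  have := Real.exp_pos (-2)
  nlinarith

/-- one phase from `exp (2 b)` to `exp b` fractional coordinates -/
theorem phase_b {I J : Type} [Fintype I] [Fintype J] (a : I → J → ℝ) (t : ℝ) (ht : 1 ≤ t)
    (a1 : ∀ i j, |a i j| ≤ 1) (col : ∀ j, ∑ i, a i j ^ 2 ≤ t) (X : I → ℝ)
    (hX : ∀ r : ℝ, ((Finset.univ.filter (fun i => X i ≤ r)).card : ℝ) ≤ Real.exp r)
    (s : ℝ) (hs : 1 ≤ s) (τ : I → ℝ) (τ_pos : ∀ i, 0 < τ i) (τ_le : ∀ i, τ i ≤ 1)
    (b c r : ℝ) (hb : 0 ≤ b) (hr : r ≤ c - 4) (x : J → ℝ) (hx : ∀ j, |x j| ≤ 1)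
    (hal : ((alive x : Finset J).card : ℝ) ≤ Real.exp (b + c)) (hsb : 960 * (b + 2) ≤ s ^ 4)
    (τ_mass : ∀ i, τ i = 1 ∨ ∑ j ∈ (alive x : Finset J), a i j ^ 2 ≤ t * (τ i / s) ^ 4) :
    ∃ y : J → ℝ, (∀ j, |y j| ≤ 1) ∧ (∀ j, |x j| = 1 → y j = x j) ∧
      (∀ i, X i ≤ r → ∑ j, a i j * (y j - x j) = 0) ∧
      (∀ i, |∑ j, a i j * (y j - x j)| ≤ cst t (b + 2) * τ i) ∧
      ((alive y : Finset J).card : ℝ) ≤ Real.exp c := by
  classical
  obtain ⟨y, h1, h2, h3, h4, -, h6⟩ := phase a t ht a1 col (b + 2) (by linarith) s hs hsb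
    (Finset.univ.filter (fun i => X i ≤ r)) (Finset.univ.filter (fun i => ¬ X i ≤ r)) τ
    (fun i _ => τ_pos i) (fun i _ => τ_le i) x hx (fun i _ => τ_mass i)
  refine ⟨y, h1, h2, fun i hi => h3 i (by simp [hi]), fun i => ?_, h6.trans ?_⟩
  · by_cases hi : X i ≤ r
    · rw [h3 i (by simp [hi]), abs_zero]
      exact mul_nonneg (cst_nonneg ht) (τ_pos i).le
    · exact h4 i (by rw [Finset.mem_filter]; exact ⟨Finset.mem_univ _, hi⟩)
  · have e1 : Real.exp (-(b + 2)) = Real.exp (-b) * Real.exp (-2) := by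
      rw [← Real.exp_add]; congr 1; ring
    have e2 : Real.exp (b + c) * Real.exp (-b) = Real.exp c := by
      rw [← Real.exp_add]; congr 1; ring
    have k1 : ((Finset.univ.filter (fun i => X i ≤ r)).card : ℝ) ≤
        Real.exp c * Real.exp (-4) := by
      refine (hX r).trans ?_
      rw [← Real.exp_add]
      exact Real.exp_le_exp.2 (by linarith)
    have k2 := exp_neg_two
    have k3 := exp_neg_four
    have k4 : 0 < Real.exp c := Real.exp_pos _
    have k5 : ((alive x : Finset J).card : ℝ) * Real.exp (-(b + 2)) ≤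
        Real.exp c * 0.14 := by
      rw [e1, ← mul_assoc]
      calc _ ≤ (Real.exp (b + c) * Real.exp (-b)) * Real.exp (-2) := by
            apply mul_le_mul_of_nonneg_right _ (Real.exp_pos _).le
            exact mul_le_mul_of_nonneg_right hal (Real.exp_pos _).le
        _ ≤ _ := by rw [e2]; exact mul_le_mul_of_nonneg_left k2 k4.le
    have k6 : Real.exp c * Real.exp (-4) ≤ Real.exp c * 0.0196 :=
      mul_le_mul_of_nonneg_left k3 k4.le
    nlinarith

/-- The cost of the second stage. -/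
noncomputable def costB (t Λ : ℝ) (K : ℕ) (X : ℝ) : ℝ :=
  cst t (Λ + 2) + ∑ k ∈ range K, (if 2 ^ k * Λ < X + 4 then cst t (2 ^ k * Λ + 2) else 0)

theorem costB_nonneg {t : ℝ} (ht : 1 ≤ t) (Λ : ℝ) (K : ℕ) (X : ℝ) : 0 ≤ costB t Λ K X := by
  unfold costB
  have := cst_nonneg (L := Λ + 2) ht
  have h2 : 0 ≤ ∑ k ∈ range K, (if 2 ^ k * Λ < X + 4 then cst t (2 ^ k * Λ + 2) else 0) := by
    apply Finset.sum_nonneg
    intro k _
    split_ifs
    · exact cst_nonneg ht
    · exact le_rfl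
  linarith

/-- **The second stage.** -/
theorem stageB {I J : Type} [Fintype I] [Fintype J] (a : I → J → ℝ) (t : ℝ) (ht : 1 ≤ t)
    (a1 : ∀ i j, |a i j| ≤ 1) (col : ∀ j, ∑ i, a i j ^ 2 ≤ t) (X : I → ℝ)
    (hX : ∀ r : ℝ, ((Finset.univ.filter (fun i => X i ≤ r)).card : ℝ) ≤ Real.exp r)
    (s : ℝ) (hs : 1 ≤ s) (τ : I → ℝ) (τ_pos : ∀ i, 0 < τ i) (τ_le : ∀ i, τ i ≤ 1)
    (Λ : ℝ) (hΛ : 1 ≤ Λ) : ∀ (K : ℕ) (x : J → ℝ), (∀ j, |x j| ≤ 1) →
    ((alive x : Finset J).card : ℝ) ≤ Real.exp (2 ^ K * Λ) → 960 * (2 ^ K * Λ + 2) ≤ s ^ 4 →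
    (∀ i, τ i = 1 ∨ ∑ j ∈ (alive x : Finset J), a i j ^ 2 ≤ t * (τ i / s) ^ 4) →
    ∃ y : J → ℝ, (∀ j, |y j| = 1) ∧ (∀ j, |x j| = 1 → y j = x j) ∧
      ∀ i, |∑ j, a i j * (y j - x j)| ≤ costB t Λ K (X i) * τ i := by
  intro K
  induction K with
  | zero =>
    intro x hx hal hsb hmass
    rw [pow_zero, one_mul] at hal hsb
    obtain ⟨y, h1, h2, -, h4, -, h6⟩ := phase a t ht a1 col (Λ + 2) (by linarith) s hs hsb
      ∅ Finset.univ τ (fun i _ => τ_pos i) (fun i _ => τ_le i) x hx (fun i _ => hmass i)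
    refine ⟨y, all_one h1 ?_, h2, fun i => ?_⟩
    · rw [Finset.card_empty, Nat.cast_zero, mul_zero, zero_add] at h6
      have e1 : Real.exp (-(Λ + 2)) = Real.exp (-Λ) * Real.exp (-2) := by
        rw [← Real.exp_add]; congr 1; ring
      have e2 : Real.exp Λ * Real.exp (-Λ) = 1 := by
        rw [← Real.exp_add]; simp
      have k5 : ((alive x : Finset J).card : ℝ) * Real.exp (-(Λ + 2)) ≤ 0.14 := by
        rw [e1, ← mul_assoc]
        calc _ ≤ (Real.exp Λ * Real.exp (-Λ)) * Real.exp (-2) := by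
              apply mul_le_mul_of_nonneg_right _ (Real.exp_pos _).le
              exact mul_le_mul_of_nonneg_right hal (Real.exp_pos _).le
          _ ≤ _ := by rw [e2, one_mul]; exact exp_neg_two
      linarith
    · have h7 : costB t Λ 0 (X i) = cst t (Λ + 2) := by unfold costB; simp
      rw [h7]
      exact h4 i (Finset.mem_univ i)
  | succ K ih =>
    intro x hx hal hsb hmass
    set b := 2 ^ K * Λ with hb
    have hb0 : 0 ≤ b := by positivity
    have e1 : 2 ^ (K + 1) * Λ = b + b := by rw [hb, pow_succ]; ring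
    rw [e1] at hal hsb
    obtain ⟨y, h1, h2, h3, h4, h5⟩ := phase_b a t ht a1 col X hX s hs τ τ_pos τ_le b b (b - 4)
      hb0 le_rfl x hx hal (by linarith) hmass
    obtain ⟨z, z1, z2, z3⟩ := ih y h1 h5 (by linarith) (fun i => by
      rcases hmass i with h | h
      · exact Or.inl h
      · exact Or.inr ((mass_mono a hx h2 i).trans h))
    refine ⟨z, z1, fun j hj => ?_, fun i => ?_⟩
    · rw [z2 j (by rw [h2 j hj]; exact hj), h2 j hj]
    · rw [split_sum a x y z i]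
      refine (abs_add_le _ _).trans ?_
      have e2 : costB t Λ (K + 1) (X i) = costB t Λ K (X i) +
          (if b < X i + 4 then cst t (b + 2) else 0) := by
        unfold costB
        rw [Finset.sum_range_succ]; ring
      rw [e2, add_mul]
      have h6 := z3 i
      by_cases hi : b < X i + 4
      · rw [if_pos hi]
        have := h4 i
        linarith
      · rw [if_neg hi, h3 i (by linarith), abs_zero]
        linarith

end Pool.Agent.L0h27.Kom
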